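import Pool.Agent.V8H25.Gov.Fin

/-!
# The edge kernel: definitions
-/

set_option autoImplicit false
set_option linter.unusedSectionVars false

namespace Pool.Agent.V8H25.Ker

open NumberField IsDedekindDomain Filter Topology Polynomial
open Pool.Agent.N172.HS (WRep Variety)
open Pool.Agent.W353.EF (IsFrobenius)
open Pool.Agent.W353.EH (edgePoint size)
open Pool.Agent.V8H25.Gov (shift HasOrder)
open scoped ComplexConjugate

/-- The object `H^i(X) ⊗ ρ`: a variety `X` over `K`, a degree `i ≤ 2 dim X` and a virtual representation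
`ρ` of the Weil group of `K`. -/
structure Obj (K : Type) [Field K] [NumberField K] where
  X : Variety K
  i : ℕ
  hi : i ≤ 2 * X.dim
  ρ : WRep K

variable {K : Type} [Field K] [NumberField K]

/-- The object `x ⊗ | |^{iu}`. -/
noncomputable def Obj.twist (x : Obj K) (u : ℝ) : Obj K := { x with ρ := shift x.ρ u }

/-- The polynomials `B v` are the Euler factors of `L(x ⊗ y^∨, s)`, normalised as
`L(H^i(X) ⊗ H^j(Y) ⊗ ρ ⊗ σ^∨, s)` for `x = H^i(X) ⊗ ρ` and `y = H^j(Y) ⊗ σ`: for almost all primes `v`,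
`B_v(z) = ∏ (1 - α_j β_l γ_m z)` with the eigenvalues `α_j`, `β_l` of the geometric Frobenius on
`H^i(X)` and `H^j(Y)`, and numbers `γ_m` of absolute value one with the sum `tr ρ` times the complex
conjugate of `tr σ`; at the other primes `B v` is an arbitrary polynomial, and no factor
`1 / B_v(q_v^{-s})` has a pole at `s = (i + j)/2 + 1 + iτ`. -/
def IsPair (x y : Obj K) (τ : ℝ) (B : HeightOneSpectrum (𝓞 K) → ℂ[X]) : Prop :=
  (∃ M : ℕ, ∀ᶠ v in cofinite, ∃ (α : Fin (x.X.betti x.i) → ℂ) (β : Fin (y.X.betti y.i) → ℂ)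
    (γ : Fin M → ℂ), IsFrobenius x.X.eqs x.X.dim x.i v α ∧ IsFrobenius y.X.eqs y.X.dim y.i v β ∧
    (∀ m, ‖γ m‖ = 1) ∧ ∑ m, γ m = x.ρ.trace v * conj (y.ρ.trace v) ∧
    ∀ z : ℂ, (B v).eval z = ∏ j, ∏ l, ∏ m, (1 - α j * β l * γ m * z)) ∧
  ∀ v, (B v).eval ((Ideal.absNorm v.asIdeal : ℂ) ^ (-edgePoint (x.i + y.i) τ)) ≠ 0

/-- `L(x ⊗ y^∨, s)` has at the point `s = (i + j)/2 + 1 + iτ` of the edge line the order `-r` (a pole of
order `r`, for example). -/
def PoleOrder (x y : Obj K) (τ : ℝ) (r : ℤ) : Prop :=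
  ∃ B : HeightOneSpectrum (𝓞 K) → ℂ[X], IsPair x y τ B ∧ HasOrder (x.i + y.i) τ B (-r)

/-- The quadratic form `∑ c_k c_l log |L(x_k ⊗ x_l^∨, s_{kl} + ε)| / log(1/ε)` with the points
`s_{kl} = (i_k + i_l)/2 + 1 + i(τ_k - τ_l)` of the edge lines; the polynomials `B k l v` are the Euler
factors. -/
noncomputable def form {n : ℕ} (x : Fin n → Obj K) (τ : Fin n → ℝ)
    (B : Fin n → Fin n → HeightOneSpectrum (𝓞 K) → ℂ[X]) (c : Fin n → ℝ) (ε : ℝ) : ℝ :=
  ∑ k, ∑ l, c k * c l * size ((x k).i + (x l).i) (τ k - τ l) (B k l) ε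

end Pool.Agent.V8H25.Ker
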