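import Pool.Agent.V8H25.Ker.Order

/-!
# The edge kernel: the centre dominates
-/

set_option autoImplicit false
set_option linter.unusedSectionVars false

namespace Pool.Agent.V8H25.Ker

open NumberField Complex Filter Topology IsDedekindDomain Asymptotics Polynomial
open Pool.Agent.N172.HS
open Pool.Agent.W353.EF (IsFrobenius LFun)
open Pool.Agent.W353.TP (HX sysH LL LL_tendsto bdd_isLittleO lamS_sub gg one_field low_kerPrime
  pnegl_isLittleO)
open Pool.Agent.H341R2 (chi chi_kerPrime nm_kerPrime PNegl low)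
open Pool.Agent.H921R2.TatePole (kerPrime)
open Pool.Agent.W353.NF (vx)
open Pool.Agent.W353.EH (edgePoint size)
open Pool.Agent.V8H25.Gov (shift HasOrder EH_mono EH_cauchy hasOrder_tendsto)
open scoped ComplexConjugate

variable {K : Type} [Field K] [NumberField K]

theorem abs_re_un (v : ℝ) (p : HX K) : |(un v p).re| ≤ 1 := by
  refine (Complex.abs_re_le_norm _).trans ?_
  rw [norm_un]

/-- The mean of a nontrivial unramified character is zero. -/
theorem un_mean {v : ℝ} (hv : v ≠ 0) :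
    Tendsto (fun ε => EH K ε (fun p => (un v p).re) / LL ε) (𝓝[>] 0) (𝓝 0) := by
  classical
  have h1 := one_field (K := K) (D := 1) one_ne_zero v
  simp only [hv, false_and, if_false, sub_zero] at h1
  refine (pnegl_isLittleO h1).tendsto_div_nhds_zero.congr' ?_
  filter_upwards [ev_pos] with ε hε
  congr 1
  rw [EH_prime hε (abs_re_un v)]
  congr 1
  funext p
  have : Fact (p : ℕ).Prime := ⟨p.2⟩
  rw [low_kerPrime]
  refine Finset.sum_congr rfl fun u _ => ?_
  unfold Pool.Agent.W353.TP.gg un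
  rw [chi_kerPrime, map_one, map_one]
  push_cast
  rw [one_mul]
  rfl

section poly

variable (N : ℕ) (c : Fin N → ℝ) (u : ℝ)

/-- a trigonometric polynomial -/
noncomputable def P (p : HX K) : ℂ := ∑ n : Fin N, (c n : ℂ) * un (n * u) p

theorem normSq_P (p : HX K) : ‖P N c u p‖ ^ 2 =
    ∑ m : Fin N, ∑ n : Fin N, c m * c n * (un ((m : ℝ) * u - n * u) p).re := by
  have h1 : ((‖P N c u p‖ ^ 2 : ℝ) : ℂ) = P N c u p * conj (P N c u p) := by
    rw [Complex.mul_conj, Complex.normSq_eq_norm_sq]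
  have h2 : ‖P N c u p‖ ^ 2 = (P N c u p * conj (P N c u p)).re := by
    rw [← h1, Complex.ofReal_re]
  rw [h2]
  unfold P
  rw [map_sum, Finset.sum_mul_sum, Complex.re_sum]
  refine Finset.sum_congr rfl fun k _ => ?_
  rw [Complex.re_sum]
  refine Finset.sum_congr rfl fun l _ => ?_
  rw [map_mul, Complex.conj_ofReal, un_sub]
  have e : (c k : ℂ) * un (k * u) p * ((c l : ℂ) * conj (un (l * u) p)) =
      ((c k * c l : ℝ) : ℂ) * (un (k * u) p * conj (un (l * u) p)) := by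
    push_cast
    ring
  rw [e, Complex.re_ofReal_mul]

variable {c} in
theorem norm_P_le (hc : ∀ n, |c n| = 1) (p : HX K) : ‖P N c u p‖ ≤ N := by
  unfold P
  refine (norm_sum_le _ _).trans ?_
  refine (Finset.sum_le_card_nsmul _ _ 1 fun n _ => ?_).trans (by simp)
  rw [norm_mul, Complex.norm_real, Real.norm_eq_abs, hc, norm_un, one_mul]

variable {u} {c} in
theorem P_mean (hu : u ≠ 0) (hc : ∀ n, |c n| = 1) :
    Tendsto (fun ε => EH K ε (fun p => ‖P N c u p‖ ^ 2) / LL ε) (𝓝[>] 0) (𝓝 N) := by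
  classical
  have h1 : Tendsto (fun ε => ∑ m : Fin N, ∑ n : Fin N, c m * c n *
      (EH K ε (fun p => (un ((m : ℝ) * u - n * u) p).re) / LL ε)) (𝓝[>] 0)
      (𝓝 (∑ m : Fin N, ∑ n : Fin N, c m * c n * (if m = n then 1 else 0))) := by
    refine tendsto_finsetSum _ fun m _ => tendsto_finsetSum _ fun n _ => Tendsto.const_mul _ ?_
    split_ifs with h
    · subst h
      refine (lam_tendsto_one (K := K)).congr fun ε => ?_
      rw [← EH_one]
      congr 2
      funext p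
      rw [sub_self]
      unfold un
      simp
    · refine un_mean ?_
      rw [← sub_mul]
      refine mul_ne_zero (sub_ne_zero.2 ?_) hu
      intro h1
      exact h (Fin.ext (by exact_mod_cast h1))
  have h2 : ∑ m : Fin N, ∑ n : Fin N, c m * c n * (if m = n then (1 : ℝ) else 0) = N := by
    have h3 : ∀ m : Fin N, ∑ n : Fin N, c m * c n * (if m = n then (1 : ℝ) else 0) = 1 := by
      intro m
      simp only [mul_ite, mul_one, mul_zero, Finset.sum_ite_eq, Finset.mem_univ, if_true]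
      rw [← sq, ← sq_abs, hc, one_pow]
    rw [Finset.sum_congr rfl fun m _ => h3 m]
    simp
  rw [h2] at h1
  refine h1.congr' ?_
  filter_upwards [ev_pos] with ε hε
  have e1 : (fun p : HX K => ‖P N c u p‖ ^ 2) = fun p => ∑ m : Fin N, ∑ n : Fin N, c m * c n *
      (un ((m : ℝ) * u - n * u) p).re := funext fun p => normSq_P N c u p
  have hb : ∀ (m n : Fin N) (p : HX K), |c m * c n * (un ((m : ℝ) * u - n * u) p).re| ≤ 1 := by
    intro m n p
    rw [abs_mul, abs_mul, hc, hc, one_mul, one_mul]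
    exact abs_re_un _ p
  rw [e1, EH_sum hε Finset.univ (fun (m : Fin N) p => ∑ n : Fin N, c m * c n *
      (un ((m : ℝ) * u - n * u) p).re) (fun _ => ∑ _n : Fin N, 1)
      (fun m _ p => (Finset.abs_sum_le_sum_abs _ _).trans (Finset.sum_le_sum fun n _ => hb m n p)),
    Finset.sum_div]
  refine Finset.sum_congr rfl fun m _ => ?_
  rw [EH_sum hε Finset.univ _ (fun _ => 1) (fun n _ p => hb m n p), Finset.sum_div]
  refine Finset.sum_congr rfl fun n _ => ?_
  rw [EH_const_mul]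
  ring

end poly

/-- the power of an unramified character -/
theorem un_nat (u : ℝ) (n : ℕ) (p : HX K) : un (n * u) p = un u p ^ n := by
  have hq : ((Ideal.absNorm (vx p).asIdeal : ℕ) : ℂ) ≠ 0 := by
    exact_mod_cast (Pool.Agent.V8H25.Gov.absNorm_pos (vx p).ne_bot).ne'
  unfold un
  rw [← Complex.cpow_nat_mul]
  congr 1
  push_cast
  ring

/-- powers of a complex number of absolute value one -/
theorem one_sub_re_pow {z : ℂ} (hz : ‖z‖ = 1) (n : ℕ) :
    1 - (z ^ n).re ≤ n ^ 2 * (1 - z.re) := by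
  have key : ∀ w : ℂ, ‖w‖ = 1 → ‖1 - w‖ ^ 2 = 2 * (1 - w.re) := by
    intro w hw
    have h1 : w.re ^ 2 + w.im ^ 2 = 1 := by
      have h2 := Complex.normSq_eq_norm_sq w
      rw [hw, Complex.normSq_apply] at h2
      nlinarith
    rw [← Complex.normSq_eq_norm_sq, Complex.normSq_apply]
    simp only [sub_re, one_re, sub_im, one_im]
    nlinarith
  have h1 : ‖1 - z ^ n‖ ≤ n * ‖1 - z‖ := by
    have h2 : 1 - z ^ n = (∑ i ∈ Finset.range n, z ^ i) * (1 - z) := by
      have h3 := geom_sum_mul z n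
      linear_combination h3
    rw [h2, norm_mul]
    refine mul_le_mul_of_nonneg_right ?_ (norm_nonneg _)
    refine (norm_sum_le _ _).trans ?_
    refine (Finset.sum_le_card_nsmul _ _ 1 fun i _ => ?_).trans (by simp)
    rw [norm_pow, hz, one_pow]
  have h2 := pow_le_pow_left₀ (norm_nonneg _) h1 2
  rw [mul_pow, key z hz, key (z ^ n) (by rw [norm_pow, hz, one_pow])] at h2
  linarith

section gap

variable (x : Obj K) (u : ℝ)

/-- the mean of the square at the centre -/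
noncomputable def ma (ε : ℝ) : ℝ := EH K ε (fun p => ‖x.f p‖ ^ 2) / LL ε

/-- the twisted mean of the square -/
noncomputable def mb (ε : ℝ) : ℝ := EH K ε (fun p => ‖x.f p‖ ^ 2 * (un u p).re) / LL ε

theorem sq_f_le (p : HX K) : ‖x.f p‖ ^ 2 ≤ x.bd ^ 2 :=
  pow_le_pow_left₀ (norm_nonneg _) (x.norm_f_le p) 2

/-- one direction -/
theorem mean_gap_sign {D s σ : ℝ} (hs : 0 < s) (hσ : |σ| = 1) (hD : x.bd ≤ D) {N : ℕ}
    (hN0 : 0 < N) (hN : 4 * D ^ 4 / s ^ 2 < N) (hu : u ≠ 0) :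
    ∀ᶠ ε : ℝ in 𝓝[>] 0, s ≤ ma x ε → σ * mb x u ε ≤ ma x ε - s / (2 * N ^ 2) := by
  classical
  have hD0 : 0 ≤ D := x.bd_nonneg.trans hD
  have hNr : (0 : ℝ) < N := by exact_mod_cast hN0
  set c : Fin N → ℝ := fun n => σ ^ (n : ℕ) with hc
  have hc1 : ∀ n, |c n| = 1 := fun n => by
    rw [hc]
    simp only
    rw [abs_pow, hσ, one_pow]
  have hσ2 : σ ^ 2 = 1 := by rw [← sq_abs, hσ, one_pow]
  -- the upper bound
  have h1 : Tendsto (fun ε => D ^ 4 * ((sysH K).lam ε / LL ε) *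
      (EH K ε (fun p => ‖P N c u p‖ ^ 2) / LL ε)) (𝓝[>] 0) (𝓝 (D ^ 4 * 1 * N)) :=
    (lam_tendsto_one.const_mul _).mul (P_mean N hu hc1)
  rw [mul_one] at h1
  have h2 : D ^ 4 * N < (N * s / 2) ^ 2 := by
    have h3 : 4 * D ^ 4 < N * s ^ 2 := by
      rwa [div_lt_iff₀ (by positivity)] at hN
    nlinarith
  filter_upwards [h1.eventually_lt_const h2, ev_LL, ev_pos] with ε h3 h4 h5 h6
  set φ : HX K → ℝ := fun p => ‖x.f p‖ ^ 2 with hφ
  have hφ0 : ∀ p, 0 ≤ φ p := fun p => sq_nonneg _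
  have hφD : ∀ p, φ p ≤ D ^ 2 := fun p =>
    (sq_f_le x p).trans (pow_le_pow_left₀ x.bd_nonneg hD 2)
  have hφa : ∀ p, |φ p| ≤ D ^ 2 := fun p => by rw [abs_of_nonneg (hφ0 p)]; exact hφD p
  have hPn : ∀ p : HX K, ‖P N c u p‖ ≤ N := fun p => norm_P_le N u hc1 p
  -- pointwise
  have h7 : ∀ p : HX K, (N : ℝ) - N ^ 3 * (1 - σ * (un u p).re) ≤ (P N c u p).re := by
    intro p
    set z : ℂ := (σ : ℂ) * un u p with hz
    have hz1 : ‖z‖ = 1 := by
      rw [hz, norm_mul, Complex.norm_real, Real.norm_eq_abs, hσ, norm_un, one_mul]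
    have hzr : z.re = σ * (un u p).re := by rw [hz, Complex.re_ofReal_mul]
    have h8 : P N c u p = ∑ n : Fin N, z ^ (n : ℕ) := by
      unfold P
      refine Finset.sum_congr rfl fun n _ => ?_
      rw [hz, mul_pow, un_nat, hc]
      push_cast
      rfl
    have h9 : ∀ n : Fin N, 1 - (N : ℝ) ^ 2 * (1 - z.re) ≤ (z ^ (n : ℕ)).re := by
      intro n
      have h10 := one_sub_re_pow hz1 (n : ℕ)
      have h11 : (0 : ℝ) ≤ 1 - z.re := by
        have := (abs_le.1 (Complex.abs_re_le_norm z)).2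
        rw [hz1] at this
        linarith
      have h12 : ((n : ℕ) : ℝ) ^ 2 ≤ (N : ℝ) ^ 2 :=
        pow_le_pow_left₀ (Nat.cast_nonneg _) (by exact_mod_cast n.2.le) 2
      nlinarith [mul_le_mul_of_nonneg_right h12 h11]
    rw [h8, Complex.re_sum]
    have h10 := Finset.sum_le_sum fun n (_ : n ∈ (Finset.univ : Finset (Fin N))) => h9 n
    rw [Finset.sum_const, Finset.card_univ, Fintype.card_fin, nsmul_eq_mul, hzr] at h10
    refine le_trans (le_of_eq ?_) h10
    ring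
  -- the lower bound
  have h8 : N * ma x ε - N ^ 3 * (ma x ε - σ * mb x u ε) ≤
      EH K ε (fun p => φ p * ‖P N c u p‖) / LL ε := by
    have h9 : ∀ p, (N - N ^ 3 : ℝ) * φ p + N ^ 3 * σ * (φ p * (un u p).re) ≤
        φ p * ‖P N c u p‖ := by
      intro p
      have h10 := mul_le_mul_of_nonneg_left ((h7 p).trans ((le_abs_self _).trans
        (Complex.abs_re_le_norm _))) (hφ0 p)
      refine le_trans (le_of_eq ?_) h10
      ring
    have b1 : ∀ p, |(N - N ^ 3 : ℝ) * φ p| ≤ |(N - N ^ 3 : ℝ)| * D ^ 2 := fun p => by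
      rw [abs_mul]
      exact mul_le_mul_of_nonneg_left (hφa p) (abs_nonneg _)
    have b2 : ∀ p, |(N ^ 3 * σ : ℝ) * (φ p * (un u p).re)| ≤ |(N ^ 3 * σ : ℝ)| * D ^ 2 :=
      fun p => by
      rw [abs_mul, abs_mul (φ p)]
      refine mul_le_mul_of_nonneg_left ?_ (abs_nonneg _)
      exact (mul_le_of_le_one_right (abs_nonneg _) (abs_re_un u p)).trans (hφa p)
    have b3 : ∀ p, |φ p * ‖P N c u p‖| ≤ D ^ 2 * N := fun p => by
      rw [abs_mul, abs_of_nonneg (norm_nonneg _)]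
      exact mul_le_mul (hφa p) (hPn p) (norm_nonneg _) (by positivity)
    have h10 := EH_mono h5 (B := |(N - N ^ 3 : ℝ)| * D ^ 2 + |(N ^ 3 * σ : ℝ)| * D ^ 2)
      (B' := D ^ 2 * N) (fun p => (abs_add_le _ _).trans (add_le_add (b1 p) (b2 p))) b3 h9
    rw [EH_add h5 b1 b2, EH_const_mul, EH_const_mul] at h10
    have h11 := div_le_div_of_nonneg_right h10 h4.le
    refine le_trans (le_of_eq ?_) h11
    unfold ma mb
    rw [hφ]
    ring
  -- Cauchy and Schwarz
  have h9 : (EH K ε (fun p => φ p * ‖P N c u p‖) / LL ε) ^ 2 < (N * s / 2) ^ 2 := by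
    refine lt_of_le_of_lt ?_ h3
    have h10 := EH_cauchy h5 (φ := φ) (ψ := fun p => ‖P N c u p‖) hφa
      (fun p => by rw [abs_of_nonneg (norm_nonneg _)]; exact hPn p)
    have h11 : EH K ε (fun p => φ p ^ 2) ≤ D ^ 4 * (sysH K).lam ε := by
      rw [← EH_one, ← EH_const_mul]
      refine EH_mono h5 (B := D ^ 4) (B' := D ^ 4) (fun p => ?_) (fun p => ?_) (fun p => ?_)
      · rw [abs_pow]
        calc |φ p| ^ 2 ≤ (D ^ 2) ^ 2 := pow_le_pow_left₀ (abs_nonneg _) (hφa p) 2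
          _ = D ^ 4 := by ring
      · rw [mul_one, abs_of_nonneg (by positivity)]
      · rw [mul_one]
        calc φ p ^ 2 ≤ (D ^ 2) ^ 2 := pow_le_pow_left₀ (hφ0 p) (hφD p) 2
          _ = D ^ 4 := by ring
    have h12 : (EH K ε (fun p => φ p * ‖P N c u p‖)) ^ 2 ≤
        D ^ 4 * (sysH K).lam ε * EH K ε (fun p => ‖P N c u p‖ ^ 2) :=
      h10.trans (mul_le_mul_of_nonneg_right h11 (EH_nonneg (fun p => sq_nonneg _) ε))
    have e : D ^ 4 * ((sysH K).lam ε / LL ε) *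
        (EH K ε (fun p => ‖P N c u p‖ ^ 2) / LL ε) =
        D ^ 4 * (sysH K).lam ε * EH K ε (fun p => ‖P N c u p‖ ^ 2) / LL ε ^ 2 := by
      ring
    rw [e, div_pow]
    exact div_le_div_of_nonneg_right h12 (sq_nonneg _)
  have h10 : EH K ε (fun p => φ p * ‖P N c u p‖) / LL ε < N * s / 2 :=
    lt_of_pow_lt_pow_left₀ 2 (by positivity) h9
  have h11 : (N : ℝ) * s ≤ N * ma x ε := mul_le_mul_of_nonneg_left h6 hNr.le
  have h12 : N * s / 2 < N ^ 3 * (ma x ε - σ * mb x u ε) := by linarith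
  have h13 : s / (2 * N ^ 2) < ma x ε - σ * mb x u ε := by
    rw [div_lt_iff₀ (by positivity)]
    nlinarith
  linarith

theorem mb_le {ε : ℝ} (hL : 0 < LL ε) (hε : 0 < ε) : |mb x u ε| ≤ ma x ε := by
  unfold ma mb
  rw [abs_div, abs_of_pos hL]
  refine div_le_div_of_nonneg_right ?_ hL.le
  have b1 : ∀ p, |‖x.f p‖ ^ 2| ≤ x.bd ^ 2 := fun p => by
    rw [abs_of_nonneg (sq_nonneg _)]
    exact sq_f_le x p
  have b2 : ∀ p, |‖x.f p‖ ^ 2 * (un u p).re| ≤ x.bd ^ 2 := fun p => by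
    rw [abs_mul]
    exact (mul_le_of_le_one_right (abs_nonneg _) (abs_re_un u p)).trans (b1 p)
  have b3 : ∀ p, |‖x.f p‖ ^ 2 * (un u p).re| ≤ ‖x.f p‖ ^ 2 := fun p => by
    rw [abs_mul, abs_of_nonneg (sq_nonneg ‖x.f p‖)]
    exact mul_le_of_le_one_right (sq_nonneg _) (abs_re_un u p)
  rw [abs_le]
  constructor
  · have h := EH_mono hε (B := x.bd ^ 2) (B' := x.bd ^ 2)
      (φ := fun p => (-1) * ‖x.f p‖ ^ 2) (ψ := fun p => ‖x.f p‖ ^ 2 * (un u p).re)
      (fun p => by rw [neg_one_mul, abs_neg]; exact b1 p) b2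
      (fun p => by rw [neg_one_mul]; exact (abs_le.1 (b3 p)).1)
    rw [EH_const_mul, neg_one_mul] at h
    exact h
  · exact EH_mono hε (B := x.bd ^ 2) (B' := x.bd ^ 2) b2 b1 (fun p => (abs_le.1 (b3 p)).2)

end gap

/-- **The gap** for the means. -/
theorem mean_gap (D : ℝ) {s : ℝ} (hs : 0 < s) : ∃ δ : ℝ, 0 < δ ∧ ∀ x : Obj K, x.bd ≤ D →
    ∀ u : ℝ, u ≠ 0 → ∀ᶠ ε : ℝ in 𝓝[>] 0, s ≤ ma x ε → |mb x u ε| ≤ ma x ε - δ := by
  obtain ⟨N, hN⟩ := exists_nat_gt (max (4 * D ^ 4 / s ^ 2) 0)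
  have hN1 : 4 * D ^ 4 / s ^ 2 < N := lt_of_le_of_lt (le_max_left _ _) hN
  have hN2 : (0 : ℝ) < N := lt_of_le_of_lt (le_max_right _ _) hN
  have hN0 : 0 < N := by exact_mod_cast hN2
  refine ⟨s / (2 * N ^ 2), by positivity, fun x hx u hu => ?_⟩
  filter_upwards [mean_gap_sign x u hs (σ := 1) abs_one hx hN0 hN1 hu,
    mean_gap_sign x u hs (σ := -1) (by rw [abs_neg, abs_one]) hx hN0 hN1 hu] with ε h1 h2 h3
  have h4 := h1 h3
  have h5 := h2 h3
  rw [abs_le]
  constructor <;> linarith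

theorem self_mul_conj_re (x : Obj K) (u : ℝ) (p : HX K) :
    (un u p * x.f p * conj (x.f p)).re = ‖x.f p‖ ^ 2 * (un u p).re := by
  have e : un u p * x.f p * conj (x.f p) = ((‖x.f p‖ ^ 2 : ℝ) : ℂ) * un u p := by
    rw [mul_assoc, Complex.mul_conj, Complex.normSq_eq_norm_sq]
    ring
  rw [e, Complex.re_ofReal_mul]

theorem size_mb {x : Obj K} {u : ℝ} {S : ℝ → ℝ} (h : IsSize x x u S) :
    Tendsto (fun ε => S ε - mb x u ε) (𝓝[>] 0) (𝓝 0) := by
  unfold IsSize at h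
  unfold mb
  simp only [self_mul_conj_re] at h
  exact h

theorem size_ma {x : Obj K} {S : ℝ → ℝ} (h : IsSize x x 0 S) :
    Tendsto (fun ε => S ε - ma x ε) (𝓝[>] 0) (𝓝 0) := by
  refine (size_mb h).congr fun ε => ?_
  unfold ma mb
  congr 3
  funext p
  unfold un
  simp

/-- **The gap** for the sizes: on the edge line the size of `L(x ⊗ x^∨, s)` is smaller at all the other
points than at the centre. -/
theorem size_gap (D : ℝ) {s : ℝ} (hs : 0 < s) : ∃ δ : ℝ, 0 < δ ∧ ∀ x : Obj K, x.bd ≤ D →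
    ∀ u : ℝ, u ≠ 0 → ∀ (B₀ B : HeightOneSpectrum (𝓞 K) → ℂ[X]), IsPair x x 0 B₀ →
      IsPair x x u B → ∀ᶠ ε : ℝ in 𝓝[>] 0, s ≤ size (x.i + x.i) 0 B₀ ε →
        |size (x.i + x.i) u B ε| ≤ size (x.i + x.i) 0 B₀ ε - δ := by
  obtain ⟨δ, hδ, h⟩ := mean_gap (K := K) D (half_pos hs)
  refine ⟨δ / 2, half_pos hδ, fun x hx u hu B₀ B hB₀ hB => ?_⟩
  have h1 := Tendsto.abs (size_ma hB₀.isSize)
  have h2 := Tendsto.abs (size_mb hB.isSize)
  rw [abs_zero] at h1 h2
  have hs4 : 0 < s / 2 := half_pos hs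
  have hδ4 : 0 < δ / 4 := by positivity
  filter_upwards [h x hx u hu, h1.eventually_lt_const (lt_min hs4 hδ4),
    h2.eventually_lt_const hδ4] with ε g1 g2 g3 g4
  have g5 := abs_lt.1 (lt_of_lt_of_le g2 (min_le_left _ _))
  have g6 := abs_lt.1 (lt_of_lt_of_le g2 (min_le_right _ _))
  have g7 := abs_lt.1 g3
  have g8 := abs_le.1 (g1 (by linarith))
  rw [abs_le]
  constructor <;> linarith

/-- **The centre dominates.** -/
theorem order_gap {x : Obj K} {u : ℝ} (hu : u ≠ 0) {r₀ r : ℤ} (h0 : PoleOrder x x 0 r₀)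
    (h : PoleOrder x x u r) : 0 ≤ r₀ ∧ (r = 0 ∨ |r| < r₀) := by
  obtain ⟨B₀, hB₀, g0⟩ := h0
  obtain ⟨B, hB, g⟩ := h
  have t0 := size_tendsto g0
  have t := size_tendsto g
  have m0 : Tendsto (ma x) (𝓝[>] 0) (𝓝 (r₀ : ℝ)) := by
    have h1 := t0.sub (size_ma hB₀.isSize)
    rw [sub_zero] at h1
    refine h1.congr fun ε => ?_
    ring
  have m : Tendsto (mb x u) (𝓝[>] 0) (𝓝 (r : ℝ)) := by
    have h1 := t.sub (size_mb hB.isSize)
    rw [sub_zero] at h1
    refine h1.congr fun ε => ?_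
    ring
  have h1 : |(r : ℝ)| ≤ r₀ := by
    refine le_of_tendsto_of_tendsto m.abs m0 ?_
    filter_upwards [ev_LL, ev_pos] with ε h4 h5
    exact mb_le x u h4 h5
  have h2 : |r| ≤ r₀ := by exact_mod_cast h1
  have h3 : 0 ≤ r₀ := (abs_nonneg _).trans h2
  refine ⟨h3, ?_⟩
  rcases h3.eq_or_lt with h4 | h4
  · left
    rw [← h4] at h2
    exact abs_eq_zero.1 (le_antisymm h2 (abs_nonneg _))
  · right
    have h5 : (0 : ℝ) < r₀ := by exact_mod_cast h4
    obtain ⟨δ, hδ, h6⟩ := mean_gap (K := K) x.bd (half_pos h5)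
    have h7 : |(r : ℝ)| ≤ r₀ - δ := by
      refine le_of_tendsto_of_tendsto m.abs (m0.sub_const δ) ?_
      filter_upwards [h6 x le_rfl u hu, m0.eventually_const_lt (half_lt_self h5)] with ε g1 g2
      exact g1 g2.le
    have h8 : |(r : ℝ)| < r₀ := by linarith
    exact_mod_cast h8

end Pool.Agent.V8H25.Ker
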