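import Pool.Agent.V8H25.Ker.Dom

/-!
# The edge kernel: the final statements
-/

set_option autoImplicit false
set_option linter.unusedSectionVars false

namespace Pool.Agent.V8H25.Ker

open NumberField Complex Filter Topology IsDedekindDomain Asymptotics Polynomial
open Pool.Agent.N172.HS
open Pool.Agent.W353.EF (IsFrobenius LFun)
open Pool.Agent.W353.EH (edgePoint size)
open Pool.Agent.V8H25.Gov (shift HasOrder)

variable {K : Type} [Field K] [NumberField K]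

theorem fin_pos {n : ℕ} {x : Fin n → Obj K} {τ : Fin n → ℝ}
    {B : Fin n → Fin n → HeightOneSpectrum (𝓞 K) → ℂ[X]}
    (hB : ∀ k l, IsPair (x k) (x l) (τ k - τ l) (B k l)) {η : ℝ} (hη : 0 < η) :
    ∀ᶠ ε : ℝ in 𝓝[>] 0, ∀ c : Fin n → ℝ, -(η * ∑ k, c k ^ 2) ≤ form x τ B c ε :=
  kernel_pos (fun k l => (hB k l).isSize) hη

theorem fin_null {n : ℕ} {x : Fin n → Obj K} {τ : Fin n → ℝ}
    {B : Fin n → Fin n → HeightOneSpectrum (𝓞 K) → ℂ[X]}
    (hB : ∀ k l, IsPair (x k) (x l) (τ k - τ l) (B k l)) {c : Fin n → ℝ} {f : Filter ℝ}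
    (hf : f ≤ 𝓝[>] 0) (hc : Tendsto (form x τ B c) f (𝓝 0)) {y : Obj K} {σ : ℝ}
    {A : Fin n → HeightOneSpectrum (𝓞 K) → ℂ[X]} (hA : ∀ k, IsPair (x k) y (τ k - σ) (A k)) :
    Tendsto (fun ε => ∑ k, c k * size ((x k).i + y.i) (τ k - σ) (A k) ε) f (𝓝 0) :=
  kernel_null (fun k l => (hB k l).isSize) hf hc fun k => (hA k).isSize

end Pool.Agent.V8H25.Ker
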