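import Pool.Agent.V8H25.Ker.Size

/-!
# The edge kernel: positivity, and null vectors
-/

set_option autoImplicit false
set_option linter.unusedSectionVars false

namespace Pool.Agent.V8H25.Ker

open NumberField Complex Filter Topology IsDedekindDomain Asymptotics Polynomial
open Pool.Agent.N172.HS
open Pool.Agent.W353.EF (IsFrobenius LFun)
open Pool.Agent.W353.TP (HX sysH LL LL_tendsto bdd_isLittleO lamS_sub)
open Pool.Agent.W353.NF (vx)
open Pool.Agent.W353.EH (edgePoint size)
open Pool.Agent.V8H25.Gov (shift HasOrder EH_mono EH_cauchy hasOrder_tendsto)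
open scoped ComplexConjugate

variable {K : Type} [Field K] [NumberField K]

theorem ev_LL : ∀ᶠ ε : ℝ in 𝓝[>] 0, 0 < LL ε := LL_tendsto.eventually_gt_atTop 0

theorem ev_pos : ∀ᶠ ε : ℝ in 𝓝[>] 0, 0 < ε := self_mem_nhdsWithin

theorem lam_tendsto_one : Tendsto (fun ε => (sysH K).lam ε / LL ε) (𝓝[>] 0) (𝓝 1) := by
  have h5 := (lamS_sub (sysH K)).tendsto_div_nhds_zero.add_const 1
  rw [zero_add] at h5
  refine h5.congr' ?_
  filter_upwards [ev_LL] with ε h
  field_simp
  ring

/-- the size and the mean value -/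
theorem pair_tendsto {x y : Obj K} {τ : ℝ} {B : HeightOneSpectrum (𝓞 K) → ℂ[X]}
    (h : IsPair x y τ B) :
    Tendsto (fun ε => size (x.i + y.i) τ B ε -
      EH K ε (fun p => (un τ p * x.f p * conj (y.f p)).re) / LL ε) (𝓝[>] 0) (𝓝 0) := by
  refine (pair_size h).2.tendsto_div_nhds_zero.congr' ?_
  filter_upwards [ev_LL] with ε h
  rw [sub_div, mul_div_cancel_right₀ _ h.ne']

/-- the function `S` has the mean value of the pair as its asymptotic value -/
def IsSize (x y : Obj K) (τ : ℝ) (S : ℝ → ℝ) : Prop :=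
  Tendsto (fun ε => S ε - EH K ε (fun p => (un τ p * x.f p * conj (y.f p)).re) / LL ε)
    (𝓝[>] 0) (𝓝 0)

theorem IsPair.isSize {x y : Obj K} {τ : ℝ} {B : HeightOneSpectrum (𝓞 K) → ℂ[X]}
    (h : IsPair x y τ B) : IsSize x y τ (size (x.i + y.i) τ B) := pair_tendsto h

theorem un_neg (τ : ℝ) (p : HX K) : un (-τ) p = conj (un τ p) := by
  have h := un_sub 0 τ p
  rw [zero_sub] at h
  rw [h]
  have h0 : un 0 p = 1 := by
    unfold un
    simp
  rw [h0, one_mul]

theorem IsSize.symm {x y : Obj K} {τ : ℝ} {S : ℝ → ℝ} (h : IsSize x y τ S) :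
    IsSize y x (-τ) S := by
  unfold IsSize at h ⊢
  have e : (fun p => (un (-τ) p * y.f p * conj (x.f p)).re) =
      fun p => (un τ p * x.f p * conj (y.f p)).re := by
    funext p
    rw [← Complex.conj_re, un_neg, map_mul, map_mul, Complex.conj_conj, Complex.conj_conj]
    congr 1
    ring
  rw [e]
  exact h

section family

variable {κ : Type} [Fintype κ] {x : κ → Obj K} {τ : κ → ℝ} {S : κ → κ → ℝ → ℝ}

/-- the quadratic form of the sizes -/
theorem form_eq (x : κ → Obj K) (τ : κ → ℝ) (S : κ → κ → ℝ → ℝ) {ε : ℝ} (hε : 0 < ε)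
    (c : κ → ℝ) :
    ∑ k, ∑ l, c k * c l * S k l ε =
      EH K ε (fun p => ‖W x τ c p‖ ^ 2) / LL ε +
      ∑ k, ∑ l, c k * c l * (S k l ε -
        EH K ε (fun p => (un (τ k - τ l) p * (x k).f p * conj ((x l).f p)).re) / LL ε) := by
  rw [EH_W x τ hε c, Finset.sum_div, ← Finset.sum_add_distrib]
  refine Finset.sum_congr rfl fun k _ => ?_
  rw [Finset.sum_div, ← Finset.sum_add_distrib]
  refine Finset.sum_congr rfl fun l _ => ?_
  ring

/-- **The sizes are a positive kernel.** -/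
theorem kernel_pos (hS : ∀ k l, IsSize (x k) (x l) (τ k - τ l) (S k l)) {η : ℝ} (hη : 0 < η) :
    ∀ᶠ ε : ℝ in 𝓝[>] 0, ∀ c : κ → ℝ, -(η * ∑ k, c k ^ 2) ≤
      ∑ k, ∑ l, c k * c l * S k l ε := by
  classical
  set η' : ℝ := η / (Fintype.card κ + 1) with hη'
  have hη'0 : 0 < η' := by positivity
  have h1 : ∀ᶠ ε : ℝ in 𝓝[>] 0, ∀ k l,
      |S k l ε -
        EH K ε (fun p => (un (τ k - τ l) p * (x k).f p * conj ((x l).f p)).re) / LL ε| < η' := by
    rw [Filter.eventually_all]
    intro k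
    rw [Filter.eventually_all]
    intro l
    have h2 := Tendsto.abs (hS k l)
    rw [abs_zero] at h2
    exact h2.eventually_lt_const hη'0
  filter_upwards [h1, ev_LL, ev_pos] with ε h1 h2 h3 c
  rw [form_eq x τ S h3 c]
  have h4 : 0 ≤ EH K ε (fun p => ‖W x τ c p‖ ^ 2) / LL ε :=
    div_nonneg (EH_nonneg (fun p => sq_nonneg _) ε) h2.le
  have h5 : |∑ k, ∑ l, c k * c l * (S k l ε -
        EH K ε (fun p => (un (τ k - τ l) p * (x k).f p * conj ((x l).f p)).re) / LL ε)| ≤
      η' * (∑ k, |c k|) ^ 2 := by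
    refine (Finset.abs_sum_le_sum_abs _ _).trans ?_
    rw [sq, Finset.sum_mul_sum, Finset.mul_sum]
    refine Finset.sum_le_sum fun k _ => ?_
    refine (Finset.abs_sum_le_sum_abs _ _).trans ?_
    rw [Finset.mul_sum]
    refine Finset.sum_le_sum fun l _ => ?_
    rw [abs_mul, abs_mul, mul_comm]
    exact mul_le_mul_of_nonneg_right (h1 k l).le (by positivity)
  have h6 : (∑ k, |c k|) ^ 2 ≤ Fintype.card κ * ∑ k, c k ^ 2 := by
    have h7 := sq_sum_le_card_mul_sum_sq (s := (Finset.univ : Finset κ)) (f := fun k => |c k|)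
    simp only [sq_abs, Finset.card_univ] at h7
    exact h7
  have h7 : 0 ≤ ∑ k, c k ^ 2 := Finset.sum_nonneg fun k _ => sq_nonneg _
  have h8 : η' * (∑ k, |c k|) ^ 2 ≤ η * ∑ k, c k ^ 2 := by
    calc η' * (∑ k, |c k|) ^ 2 ≤ η' * (Fintype.card κ * ∑ k, c k ^ 2) :=
          mul_le_mul_of_nonneg_left h6 hη'0.le
      _ ≤ η' * ((Fintype.card κ + 1) * ∑ k, c k ^ 2) := by
          refine mul_le_mul_of_nonneg_left (mul_le_mul_of_nonneg_right ?_ h7) hη'0.le
          linarith
      _ = η * ∑ k, c k ^ 2 := by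
          rw [hη']
          field_simp
  have h9 := neg_abs_le (∑ k, ∑ l, c k * c l *
    (S k l ε -
        EH K ε (fun p => (un (τ k - τ l) p * (x k).f p * conj ((x l).f p)).re) / LL ε))
  linarith

/-- **Null vectors are in the radical.** -/
theorem kernel_null (hS : ∀ k l, IsSize (x k) (x l) (τ k - τ l) (S k l)) {c : κ → ℝ}
    {f : Filter ℝ} (hf : f ≤ 𝓝[>] 0)
    (hc : Tendsto (fun ε => ∑ k, ∑ l, c k * c l *
      S k l ε) f (𝓝 0))
    {y : Obj K} {σ : ℝ} {A : κ → ℝ → ℝ}
    (hA : ∀ k, IsSize (x k) y (τ k - σ) (A k)) :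
    Tendsto (fun ε => ∑ k, c k * A k ε) f (𝓝 0) := by
  classical
  -- the norm of the linear combination tends to zero
  have h1 : Tendsto (fun ε => EH K ε (fun p => ‖W x τ c p‖ ^ 2) / LL ε) f (𝓝 0) := by
    have h2 : Tendsto (fun ε => ∑ k, ∑ l, c k * c l *
        (S k l ε -
        EH K ε (fun p => (un (τ k - τ l) p * (x k).f p * conj ((x l).f p)).re) / LL ε)) f
        (𝓝 (∑ k, ∑ l, c k * c l * 0)) :=
      tendsto_finsetSum _ fun k _ => tendsto_finsetSum _ fun l _ =>
        (Tendsto.mono_left (hS k l) hf).const_mul _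
    simp only [mul_zero, Finset.sum_const_zero] at h2
    have h3 := hc.sub h2
    rw [sub_zero] at h3
    refine h3.congr' ?_
    filter_upwards [hf ev_LL, hf ev_pos] with ε h4 h5
    rw [form_eq x τ S h5 c]
    ring
  -- the mean value of the product
  set g : HX K → ℂ := fun p => un σ p * y.f p with hg
  have hgb : ∀ p, ‖g p‖ ≤ y.bd := fun p => by
    rw [hg]
    simp only
    rw [norm_mul, norm_un, one_mul]
    exact y.norm_f_le p
  set T : ℝ → ℝ := fun ε => EH K ε (fun p => (W x τ c p * conj (g p)).re) / LL ε with hT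
  have h2 : Tendsto (fun ε => (∑ k, c k * A k ε) - T ε) f
      (𝓝 0) := by
    have h3 : Tendsto (fun ε => ∑ k, c k * (A k ε -
        EH K ε (fun p => (un (τ k - σ) p * (x k).f p * conj (y.f p)).re) / LL ε)) f
        (𝓝 (∑ k, c k * 0)) :=
      tendsto_finsetSum _ fun k _ => (Tendsto.mono_left (hA k) hf).const_mul _
    simp only [mul_zero, Finset.sum_const_zero] at h3
    refine h3.congr' ?_
    filter_upwards [hf ev_LL, hf ev_pos] with ε h4 h5
    have e1 : (fun p => (W x τ c p * conj (g p)).re) = fun p => ∑ k, c k *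
        (un (τ k - σ) p * (x k).f p * conj (y.f p)).re := by
      funext p
      unfold W
      rw [Finset.sum_mul, Complex.re_sum]
      refine Finset.sum_congr rfl fun k _ => ?_
      rw [hg]
      simp only
      rw [map_mul, un_sub]
      have e : (c k : ℂ) * (un (τ k) p * (x k).f p) * (conj (un σ p) * conj (y.f p)) =
        ((c k : ℝ) : ℂ) * (un (τ k) p * conj (un σ p) * (x k).f p * conj (y.f p)) := by ring
      rw [e, Complex.re_ofReal_mul]
    rw [hT]
    simp only
    rw [e1, EH_sum h5 Finset.univ (fun k p => c k *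
        (un (τ k - σ) p * (x k).f p * conj (y.f p)).re) (fun k => |c k| * ((x k).bd * y.bd))
      (fun k _ p => by
        rw [abs_mul]
        exact mul_le_mul_of_nonneg_left (abs_term_le _ _ _ p) (abs_nonneg _)), Finset.sum_div,
      ← Finset.sum_sub_distrib]
    refine Finset.sum_congr rfl fun k _ => ?_
    rw [EH_const_mul]
    ring
  -- the inequality of Cauchy and Schwarz
  have h3 : ∀ᶠ ε in f, T ε ^ 2 ≤ (EH K ε (fun p => ‖W x τ c p‖ ^ 2) / LL ε) *
      (y.bd ^ 2 * ((sysH K).lam ε / LL ε)) := by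
    filter_upwards [hf ev_LL, hf ev_pos] with ε h4 h5
    have b1 : ∀ p, |(‖W x τ c p‖)| ≤ wb x c := fun p => by
      rw [abs_of_nonneg (norm_nonneg _)]; exact norm_W_le x τ c p
    have b2 : ∀ p, |(‖g p‖)| ≤ y.bd := fun p => by
      rw [abs_of_nonneg (norm_nonneg _)]; exact hgb p
    have b3 : ∀ p, |(W x τ c p * conj (g p)).re| ≤ ‖W x τ c p‖ * ‖g p‖ := fun p => by
      refine (Complex.abs_re_le_norm _).trans ?_
      rw [norm_mul, Complex.norm_conj]
    have b4 : ∀ p, |‖W x τ c p‖ * ‖g p‖| ≤ wb x c * y.bd := fun p => by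
      rw [abs_mul]
      exact mul_le_mul (b1 p) (b2 p) (abs_nonneg _) (wb_nonneg x c)
    have b5 : ∀ p, |(W x τ c p * conj (g p)).re| ≤ wb x c * y.bd := fun p =>
      (b3 p).trans ((le_abs_self _).trans (b4 p))
    have h6 : |EH K ε (fun p => (W x τ c p * conj (g p)).re)| ≤
        EH K ε (fun p => ‖W x τ c p‖ * ‖g p‖) := by
      rw [abs_le]
      constructor
      · have h7 : EH K ε (fun p => (-1) * (‖W x τ c p‖ * ‖g p‖)) ≤
            EH K ε (fun p => (W x τ c p * conj (g p)).re) :=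
          EH_mono h5 (B := wb x c * y.bd) (B' := wb x c * y.bd)
            (fun p => by rw [neg_one_mul, abs_neg]; exact b4 p) b5
            (fun p => by rw [neg_one_mul]; exact (abs_le.1 (b3 p)).1)
        rw [EH_const_mul, neg_one_mul] at h7
        exact h7
      · exact EH_mono h5 (B := wb x c * y.bd) (B' := wb x c * y.bd) b5 b4
          (fun p => (abs_le.1 (b3 p)).2)
    have h7 := EH_cauchy h5 b1 b2
    have h8 : EH K ε (fun p => ‖g p‖ ^ 2) ≤ y.bd ^ 2 * (sysH K).lam ε := by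
      rw [← EH_one, ← EH_const_mul]
      refine EH_mono h5 (B := y.bd ^ 2) (B' := y.bd ^ 2) (fun p => ?_) (fun p => ?_)
        (fun p => ?_)
      · rw [abs_pow]
        exact pow_le_pow_left₀ (abs_nonneg _) (b2 p) 2
      · rw [mul_one, abs_of_nonneg (sq_nonneg _)]
      · rw [mul_one]
        exact pow_le_pow_left₀ (norm_nonneg _) (hgb p) 2
    have h9 : (EH K ε (fun p => (W x τ c p * conj (g p)).re)) ^ 2 ≤
        EH K ε (fun p => ‖W x τ c p‖ ^ 2) * (y.bd ^ 2 * (sysH K).lam ε) := by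
      rw [← sq_abs]
      refine (pow_le_pow_left₀ (abs_nonneg _) h6 2).trans (h7.trans ?_)
      exact mul_le_mul_of_nonneg_left h8 (EH_nonneg (fun p => sq_nonneg _) ε)
    rw [hT]
    simp only
    rw [div_pow, ← mul_div_assoc, div_mul_div_comm, ← sq (LL ε)]
    exact div_le_div_of_nonneg_right h9 (sq_nonneg _)
  have h4 : Tendsto (fun ε => (EH K ε (fun p => ‖W x τ c p‖ ^ 2) / LL ε) *
      (y.bd ^ 2 * ((sysH K).lam ε / LL ε))) f (𝓝 (0 * (y.bd ^ 2 * 1))) :=
    h1.mul ((lam_tendsto_one.mono_left hf).const_mul _)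
  rw [zero_mul] at h4
  have h5 : Tendsto (fun ε => T ε ^ 2) f (𝓝 0) :=
    squeeze_zero' (Eventually.of_forall fun ε => sq_nonneg _) h3 h4
  have h6 : Tendsto T f (𝓝 0) := by
    have h7 := h5.sqrt
    rw [Real.sqrt_zero] at h7
    rw [tendsto_zero_iff_abs_tendsto_zero]
    refine h7.congr fun ε => ?_
    simp only [Function.comp_apply]
    exact Real.sqrt_sq_eq_abs _
  have h7 := h2.add h6
  rw [add_zero] at h7
  refine h7.congr fun ε => ?_
  ring

end family

end Pool.Agent.V8H25.Ker
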