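import Pool.Agent.V8H25.Ker.Main

/-!
# The edge kernel: orders
-/

set_option autoImplicit false
set_option linter.unusedSectionVars false

namespace Pool.Agent.V8H25.Ker

open NumberField Complex Filter Topology IsDedekindDomain Asymptotics Polynomial
open Pool.Agent.N172.HS
open Pool.Agent.W353.EF (IsFrobenius LFun)
open Pool.Agent.W353.TP (HX sysH LL LL_tendsto bdd_isLittleO lamS_sub)
open Pool.Agent.W353.NF (vx)
open Pool.Agent.W353.EH (edgePoint size)
open Pool.Agent.V8H25.Gov (shift HasOrder EH_mono EH_cauchy hasOrder_tendsto)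
open scoped ComplexConjugate

variable {K : Type} [Field K] [NumberField K]

theorem size_tendsto {i : ℕ} {τ : ℝ} {B : HeightOneSpectrum (𝓞 K) → ℂ[X]} {r : ℤ}
    (h : HasOrder i τ B (-r)) : Tendsto (size i τ B) (𝓝[>] 0) (𝓝 (r : ℝ)) := by
  have h1 := hasOrder_tendsto h
  push_cast at h1
  rwa [neg_neg] at h1

section family

variable {κ : Type} [Fintype κ] {x : κ → Obj K} {τ : κ → ℝ}

theorem form_tendsto {B : κ → κ → HeightOneSpectrum (𝓞 K) → ℂ[X]} {r : κ → κ → ℤ}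
    (h : ∀ k l, HasOrder ((x k).i + (x l).i) (τ k - τ l) (B k l) (-(r k l))) (c : κ → ℝ) :
    Tendsto (fun ε => ∑ k, ∑ l, c k * c l * size ((x k).i + (x l).i) (τ k - τ l) (B k l) ε)
      (𝓝[>] 0) (𝓝 (∑ k, ∑ l, c k * c l * (r k l : ℝ))) :=
  tendsto_finsetSum _ fun k _ => tendsto_finsetSum _ fun l _ =>
    (size_tendsto (h k l)).const_mul _

/-- **The orders are a positive kernel.** -/
theorem order_nonneg {r : κ → κ → ℤ} (h : ∀ k l, PoleOrder (x k) (x l) (τ k - τ l) (r k l))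
    (c : κ → ℝ) : 0 ≤ ∑ k, ∑ l, c k * c l * (r k l : ℝ) := by
  choose B hB hr using h
  have h1 := form_tendsto hr c
  have h2 : ∀ η : ℝ, 0 < η → -(η * ∑ k, c k ^ 2) ≤ ∑ k, ∑ l, c k * c l * (r k l : ℝ) := by
    intro η hη
    refine ge_of_tendsto h1 ?_
    filter_upwards [kernel_pos (fun k l => (hB k l).isSize) hη] with ε h3
    exact h3 c
  have h4 : Tendsto (fun η : ℝ => -(η * ∑ k, c k ^ 2)) (𝓝[>] 0) (𝓝 (-(0 * ∑ k, c k ^ 2))) := by
    refine Tendsto.neg (Tendsto.mul_const _ ?_)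
    exact tendsto_nhdsWithin_of_tendsto_nhds tendsto_id
  rw [zero_mul, neg_zero] at h4
  refine le_of_tendsto h4 ?_
  filter_upwards [self_mem_nhdsWithin] with η hη
  exact h2 η hη

/-- **Null vectors are in the radical.** -/
theorem order_null {r : κ → κ → ℤ} (h : ∀ k l, PoleOrder (x k) (x l) (τ k - τ l) (r k l))
    {c : κ → ℝ} (hc : ∑ k, ∑ l, c k * c l * (r k l : ℝ) = 0) {y : Obj K} {σ : ℝ}
    {A : κ → HeightOneSpectrum (𝓞 K) → ℂ[X]} (hA : ∀ k, IsPair (x k) y (τ k - σ) (A k)) :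
    Tendsto (fun ε => ∑ k, c k * size ((x k).i + y.i) (τ k - σ) (A k) ε) (𝓝[>] 0) (𝓝 0) := by
  choose B hB hr using h
  have h1 := form_tendsto hr c
  rw [hc] at h1
  exact kernel_null (fun k l => (hB k l).isSize) le_rfl h1 fun k => (hA k).isSize

/-- Null vectors, if the orders with the further object exist. -/
theorem order_null' {r : κ → κ → ℤ} (h : ∀ k l, PoleOrder (x k) (x l) (τ k - τ l) (r k l))
    {c : κ → ℝ} (hc : ∑ k, ∑ l, c k * c l * (r k l : ℝ) = 0) {y : Obj K} {σ : ℝ}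
    {s : κ → ℤ} (hs : ∀ k, PoleOrder (x k) y (τ k - σ) (s k)) : ∑ k, c k * (s k : ℝ) = 0 := by
  choose A hA hr using hs
  have h1 := order_null h hc hA
  have h2 : Tendsto (fun ε => ∑ k, c k * size ((x k).i + y.i) (τ k - σ) (A k) ε) (𝓝[>] 0)
      (𝓝 (∑ k, c k * (s k : ℝ))) :=
    tendsto_finsetSum _ fun k _ => (size_tendsto (hr k)).const_mul _
  exact tendsto_nhds_unique h2 h1

end family

/-- **Rigidity**: a pole or zero at the edge for two objects of norm one. -/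
theorem rigid {x y : Obj K} {τ : ℝ} {r : ℤ} (hx : PoleOrder x x 0 1) (hy : PoleOrder y y 0 1)
    (hr : PoleOrder x y τ r) : (r = -1 ∨ r = 0 ∨ r = 1) ∧ (r ≠ 0 →
      ∀ (z : Obj K) (σ : ℝ) (A A' : HeightOneSpectrum (𝓞 K) → ℂ[X]), IsPair x z (τ + σ) A →
        IsPair y z σ A' →
        Tendsto (fun ε => size (x.i + z.i) (τ + σ) A ε - r * size (y.i + z.i) σ A' ε)
          (𝓝[>] 0) (𝓝 0)) := by
  obtain ⟨Bx, hBx, hx⟩ := hx
  obtain ⟨By, hBy, hy⟩ := hy
  obtain ⟨B, hB, hr⟩ := hr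
  have s1 := size_tendsto hx
  have s2 := size_tendsto hy
  have s3 := size_tendsto hr
  set xx : Fin 2 → Obj K := ![x, y] with hxx
  set tt : Fin 2 → ℝ := ![τ, 0] with htt
  set S : Fin 2 → Fin 2 → ℝ → ℝ := ![![size (x.i + x.i) 0 Bx, size (x.i + y.i) τ B],
    ![size (x.i + y.i) τ B, size (y.i + y.i) 0 By]] with hSS
  have hS : ∀ k l, IsSize (xx k) (xx l) (tt k - tt l) (S k l) := by
    intro k l
    fin_cases k <;> fin_cases l
    · have h := hBx.isSize
      simpa [hxx, htt, hSS] using h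
    · have h := hB.isSize
      simpa [hxx, htt, hSS] using h
    · have h := hB.isSize.symm
      simpa [hxx, htt, hSS] using h
    · have h := hBy.isSize
      simpa [hxx, htt, hSS] using h
  have hform : ∀ c : Fin 2 → ℝ, Tendsto (fun ε => ∑ k, ∑ l, c k * c l * S k l ε) (𝓝[>] 0)
      (𝓝 (c 0 ^ 2 + 2 * c 0 * c 1 * r + c 1 ^ 2)) := by
    intro c
    have h1 := (((s1.const_mul (c 0 * c 0)).add (s3.const_mul (c 0 * c 1))).add
      (s3.const_mul (c 1 * c 0))).add (s2.const_mul (c 1 * c 1))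
    refine (h1.congr fun ε => ?_).trans (le_of_eq ?_)
    · simp only [Fin.sum_univ_two, hSS, Matrix.cons_val_zero, Matrix.cons_val_one]
      ring
    · congr 1
      push_cast
      ring
  have hnn : ∀ c : Fin 2 → ℝ, 0 ≤ c 0 ^ 2 + 2 * c 0 * c 1 * r + c 1 ^ 2 := by
    intro c
    have h2 : ∀ η : ℝ, 0 < η → -(η * ∑ k, c k ^ 2) ≤ c 0 ^ 2 + 2 * c 0 * c 1 * r + c 1 ^ 2 := by
      intro η hη
      refine ge_of_tendsto (hform c) ?_
      filter_upwards [kernel_pos hS hη] with ε h3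
      exact h3 c
    have h4 : Tendsto (fun η : ℝ => -(η * ∑ k, c k ^ 2)) (𝓝[>] 0) (𝓝 (-(0 * ∑ k, c k ^ 2))) := by
      refine Tendsto.neg (Tendsto.mul_const _ ?_)
      exact tendsto_nhdsWithin_of_tendsto_nhds tendsto_id
    rw [zero_mul, neg_zero] at h4
    refine le_of_tendsto h4 ?_
    filter_upwards [self_mem_nhdsWithin] with η hη
    exact h2 η hη
  have hr2 : (r : ℝ) ^ 2 ≤ 1 := by
    have h := hnn ![(1 : ℝ), -r]
    simp only [Matrix.cons_val_zero, Matrix.cons_val_one] at h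
    nlinarith
  have hr3 : r ^ 2 ≤ 1 := by exact_mod_cast hr2
  have hr4 : r = -1 ∨ r = 0 ∨ r = 1 := by
    have h1 : r ≤ 1 := by nlinarith
    have h2 : -1 ≤ r := by nlinarith
    omega
  refine ⟨hr4, fun hr0 z σ A A' hA hA' => ?_⟩
  have hr5 : (r : ℝ) ^ 2 = 1 := by
    have h5 : r ^ 2 = 1 := by
      rcases hr4 with h | h | h
      · rw [h]; norm_num
      · exact absurd h hr0
      · rw [h]; norm_num
    exact_mod_cast h5
  have h6 := hform ![(1 : ℝ), -r]
  have h7 : (![(1 : ℝ), -r]) 0 ^ 2 + 2 * (![(1 : ℝ), -r]) 0 * (![(1 : ℝ), -r]) 1 * r +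
      (![(1 : ℝ), -r]) 1 ^ 2 = 0 := by
    simp only [Matrix.cons_val_zero, Matrix.cons_val_one]
    linear_combination (-1 : ℝ) * hr5
  rw [h7] at h6
  have h8 := kernel_null hS le_rfl h6 (y := z) (σ := -σ)
    (A := ![size (x.i + z.i) (τ + σ) A, size (y.i + z.i) σ A']) (by
      intro k
      fin_cases k
      · have h := hA.isSize
        simpa [hxx, htt] using h
      · have h := hA'.isSize
        simpa [hxx, htt] using h)
  refine h8.congr fun ε => ?_
  simp only [Fin.sum_univ_two, Matrix.cons_val_zero, Matrix.cons_val_one]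
  ring

end Pool.Agent.V8H25.Ker
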