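import Pool.Agent.V8H25.Ker.Defs

/-!
# The edge kernel: the sizes
-/

set_option autoImplicit false
set_option linter.unusedSectionVars false

namespace Pool.Agent.V8H25.Ker

open NumberField Complex Filter Topology IsDedekindDomain Asymptotics Polynomial
open Pool.Agent.N172.HS
open Pool.Agent.W353.EF (IsFrobenius LFun)
open Pool.Agent.W353.TP (HX sysH LL LL_tendsto bdd_isLittleO lamS_sub)
open Pool.Agent.W353.NF (vx)
open Pool.Agent.W353.PV (Eig)
open Pool.Agent.W540.BE (nm two_le_nm)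
open Pool.Agent.W353.EH (edgePoint size)
open Pool.Agent.V8H25.Gov (shift HasOrder shiftB shiftB_eval shiftB_LFun shiftB_size shiftB_edge
  norm_unr absNorm_pos shift_tH EH_mono EH_cauchy hasOrder_tendsto unr_mul_conj)
open scoped ComplexConjugate

variable {K : Type} [Field K] [NumberField K]

/-- the trace function of an object at the primes of degree one -/
noncomputable def Obj.f (x : Obj K) (p : HX K) : ℂ := (TV x.X x.i (vx p) : ℂ) * x.ρ.tH p

/-- a bound -/
noncomputable def Obj.bd (x : Obj K) : ℝ := x.X.betti x.i * x.ρ.bd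

theorem Obj.bd_nonneg (x : Obj K) : 0 ≤ x.bd := mul_nonneg (Nat.cast_nonneg _) x.ρ.bd_nonneg

theorem Obj.norm_f_le (x : Obj K) (p : HX K) : ‖x.f p‖ ≤ x.bd := by
  unfold Obj.f Obj.bd
  rw [norm_mul, Complex.norm_real, Real.norm_eq_abs]
  exact mul_le_mul (abs_TV _ _ _) (x.ρ.norm_tH_le p) (norm_nonneg _) (Nat.cast_nonneg _)

/-- the unramified character at the primes of degree one -/
noncomputable def un (τ : ℝ) (p : HX K) : ℂ := ((Ideal.absNorm (vx p).asIdeal : ℕ) : ℂ) ^ (-(τ * I))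

theorem norm_un (τ : ℝ) (p : HX K) : ‖un τ p‖ = 1 := norm_unr τ (absNorm_pos (vx p).ne_bot)

theorem un_sub (τ τ' : ℝ) (p : HX K) : un (τ - τ') p = un τ p * conj (un τ' p) := by
  have hq : ((Ideal.absNorm (vx p).asIdeal : ℕ) : ℂ) ≠ 0 := by
    exact_mod_cast (absNorm_pos (vx p).ne_bot).ne'
  have h1 : conj (un τ' p) = un (-τ') p := by
    have h2 : un τ' p * conj (un τ' p) = 1 := unr_mul_conj τ' p
    have h3 : un τ' p * un (-τ') p = 1 := by
      unfold un
      rw [← Complex.cpow_add _ _ hq]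
      push_cast
      rw [show -(τ' * I) + -(-(τ' : ℂ) * I) = 0 by ring, Complex.cpow_zero]
    have h4 : un τ' p ≠ 0 := by
      rw [← norm_ne_zero_iff, norm_un]
      exact one_ne_zero
    exact mul_left_cancel₀ h4 (h2.trans h3.symm)
  rw [h1]
  unfold un
  rw [← Complex.cpow_add _ _ hq]
  congr 1
  push_cast
  ring

theorem twist_f (x : Obj K) (u : ℝ) (p : HX K) : (x.twist u).f p = un u p * x.f p := by
  unfold Obj.f Obj.twist un
  rw [shift_tH]
  ring

/-- **The size of the L-function of a pair of objects.** -/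
theorem pair_size {x y : Obj K} {τ : ℝ} {B : HeightOneSpectrum (𝓞 K) → ℂ[X]}
    (h : IsPair x y τ B) :
    (∀ᶠ ε : ℝ in 𝓝[>] 0, LFun B (edgePoint (x.i + y.i) τ + ε) ≠ 0) ∧
    (fun ε => size (x.i + y.i) τ B ε * LL ε -
      EH K ε (fun p => (un τ p * x.f p * conj (y.f p)).re)) =o[𝓝[>] 0] LL := by
  obtain ⟨⟨M, hM⟩, h0⟩ := h
  have h1 := size_H (K := K) (ι := Fin (x.X.betti x.i) × Fin (y.X.betti y.i) × Fin M)
    (i := x.i + y.i) (shiftB τ B)
    (fun v => (((Ideal.absNorm v.asIdeal : ℕ) : ℂ) ^ (-(τ * I)) *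
      ((TV x.X x.i v : ℂ) * x.ρ.trace v) * conj ((TV y.X y.i v : ℂ) * y.ρ.trace v)).re) (by
      filter_upwards [hM] with v hv
      obtain ⟨α, β, γ, g1, g2, g3, g4, g5⟩ := hv
      have hn0 : 0 < nm K v := by
        have := two_le_nm v
        omega
      have hq : (0 : ℝ) < nm K v := by exact_mod_cast hn0
      have hq' : ((nm K v : ℕ) : ℂ) ≠ 0 := by exact_mod_cast hq.ne'
      have e6 : ((Ideal.absNorm v.asIdeal : ℕ) : ℂ) = ((nm K v : ℕ) : ℂ) := rfl
      set u : ℂ := ((nm K v : ℕ) : ℂ) ^ (-(τ * I)) with hu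
      have hu1 : ‖u‖ = 1 := norm_unr τ hn0
      have n1 : ∀ j, ‖α j‖ = (nm K v : ℝ) ^ ((x.i : ℝ) / 2) := fun j =>
        Eig.norm (X := x.X.eqs) (d := x.X.dim) g1 j
      have n2 : ∀ j, ‖β j‖ = (nm K v : ℝ) ^ ((y.i : ℝ) / 2) := fun j =>
        Eig.norm (X := y.X.eqs) (d := y.X.dim) g2 j
      refine ⟨fun l => α l.1 * β l.2.1 * γ l.2.2 * u, fun l => ?_, ?_, fun z => ?_⟩
      · rw [norm_mul, hu1, mul_one, norm_mul, g3, mul_one, norm_mul, n1, n2, ← Real.rpow_add hq]
        congr 1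
        push_cast
        ring
      · have t1 := TV_eq x.X x.hi g1
        have t2 := TV_eq y.X y.hi g2
        have e1 : ∑ l : Fin (x.X.betti x.i) × Fin (y.X.betti y.i) × Fin M,
            α l.1 * β l.2.1 * γ l.2.2 * u = (∑ j, α j) * (∑ j, β j) * (∑ m, γ m) * u := by
          rw [← Finset.univ_product_univ, Finset.sum_product, Finset.sum_mul_sum,
            Finset.sum_mul_sum, Finset.sum_mul]
          refine Finset.sum_congr rfl fun j _ => ?_
          rw [← Finset.univ_product_univ, Finset.sum_product]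
          rw [Finset.sum_mul]
          rw [Finset.sum_comm]
          refine Finset.sum_congr rfl fun m _ => ?_
          rw [Finset.sum_mul, Finset.sum_mul]
        have e2 : ((nm K v : ℕ) : ℂ) ^ (-(((x.i + y.i : ℕ) : ℂ) / 2)) =
            ((nm K v : ℕ) : ℂ) ^ (-((x.i : ℂ) / 2)) * ((nm K v : ℕ) : ℂ) ^ (-((y.i : ℂ) / 2)) := by
          rw [← Complex.cpow_add _ _ hq']
          congr 1
          push_cast
          ring
        rw [e1, e2, g4, e6, ← hu, map_mul, Complex.conj_ofReal, t1, t2]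
        congr 1
        ring
      · rw [shiftB_eval, g5, e6, ← Finset.univ_product_univ, Finset.prod_product]
        refine Finset.prod_congr rfl fun j _ => ?_
        rw [← Finset.univ_product_univ, Finset.prod_product]
        refine Finset.prod_congr rfl fun l _ => Finset.prod_congr rfl fun m _ => ?_
        ring) (fun v => by
        have e6 : ((Ideal.absNorm v.asIdeal : ℕ) : ℂ) = ((nm K v : ℕ) : ℂ) := rfl
        rw [← e6, shiftB_edge]
        exact h0 v)
    (D := x.bd * y.bd) (fun p => by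
      refine (Complex.abs_re_le_norm _).trans ?_
      rw [norm_mul, norm_mul, norm_unr τ (absNorm_pos (vx p).ne_bot), one_mul, Complex.norm_conj,
        WRep.trace_vx, WRep.trace_vx]
      exact mul_le_mul (x.norm_f_le p) (y.norm_f_le p) (norm_nonneg _) x.bd_nonneg)
  have e9 : ∀ ε : ℝ, LFun (shiftB τ B) (((x.i + y.i : ℕ) : ℂ) / 2 + 1 + ε) =
      LFun B (edgePoint (x.i + y.i) τ + ε) := by
    intro ε
    rw [shiftB_LFun]
    unfold edgePoint
    congr 1
    ring
  refine ⟨by simpa only [e9] using h1.1, ?_⟩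
  have h2 := h1.2
  simp only [WRep.trace_vx, shiftB_size] at h2
  exact h2

section family

variable {κ : Type} [Fintype κ] (x : κ → Obj K) (τ : κ → ℝ)

/-- a real linear combination of the functions of objects -/
noncomputable def W (c : κ → ℝ) (p : HX K) : ℂ := ∑ k, (c k : ℂ) * (un (τ k) p * (x k).f p)

/-- a bound -/
noncomputable def wb (c : κ → ℝ) : ℝ := ∑ k, |c k| * (x k).bd

theorem wb_nonneg (c : κ → ℝ) : 0 ≤ wb x c :=
  Finset.sum_nonneg fun k _ => mul_nonneg (abs_nonneg _) (x k).bd_nonneg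

theorem norm_W_le (c : κ → ℝ) (p : HX K) : ‖W x τ c p‖ ≤ wb x c := by
  unfold W wb
  refine (norm_sum_le _ _).trans (Finset.sum_le_sum fun k _ => ?_)
  rw [norm_mul, Complex.norm_real, Real.norm_eq_abs, norm_mul, norm_un, one_mul]
  exact mul_le_mul_of_nonneg_left ((x k).norm_f_le p) (abs_nonneg _)

theorem normSq_W (c : κ → ℝ) (p : HX K) : ‖W x τ c p‖ ^ 2 =
    ∑ k, ∑ l, c k * c l * (un (τ k - τ l) p * (x k).f p * conj ((x l).f p)).re := by
  have h1 : ((‖W x τ c p‖ ^ 2 : ℝ) : ℂ) = W x τ c p * conj (W x τ c p) := by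
    rw [Complex.mul_conj, Complex.normSq_eq_norm_sq]
  have h2 : ‖W x τ c p‖ ^ 2 = (W x τ c p * conj (W x τ c p)).re := by
    rw [← h1, Complex.ofReal_re]
  rw [h2]
  unfold W
  rw [map_sum, Finset.sum_mul_sum, Complex.re_sum]
  refine Finset.sum_congr rfl fun k _ => ?_
  rw [Complex.re_sum]
  refine Finset.sum_congr rfl fun l _ => ?_
  rw [map_mul, map_mul, Complex.conj_ofReal, un_sub]
  have e : (c k : ℂ) * (un (τ k) p * (x k).f p) * ((c l : ℂ) * (conj (un (τ l) p) *
      conj ((x l).f p))) = ((c k * c l : ℝ) : ℂ) *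
      (un (τ k) p * conj (un (τ l) p) * (x k).f p * conj ((x l).f p)) := by
    push_cast
    ring
  rw [e, Complex.re_ofReal_mul]

theorem abs_term_le (x y : Obj K) (u : ℝ) (p : HX K) :
    |(un u p * x.f p * conj (y.f p)).re| ≤ x.bd * y.bd := by
  refine (Complex.abs_re_le_norm _).trans ?_
  rw [norm_mul, norm_mul, norm_un, one_mul, Complex.norm_conj]
  exact mul_le_mul (x.norm_f_le p) (y.norm_f_le p) (norm_nonneg _) x.bd_nonneg

theorem EH_W {ε : ℝ} (hε : 0 < ε) (c : κ → ℝ) : EH K ε (fun p => ‖W x τ c p‖ ^ 2) =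
    ∑ k, ∑ l, c k * c l *
      EH K ε (fun p => (un (τ k - τ l) p * (x k).f p * conj ((x l).f p)).re) := by
  have e1 : (fun p => ‖W x τ c p‖ ^ 2) = fun p => ∑ k, ∑ l, c k * c l *
      (un (τ k - τ l) p * (x k).f p * conj ((x l).f p)).re := funext fun p => normSq_W x τ c p
  have hb : ∀ k l p, |c k * c l * (un (τ k - τ l) p * (x k).f p * conj ((x l).f p)).re| ≤
      |c k * c l| * ((x k).bd * (x l).bd) := fun k l p => by
    rw [abs_mul]
    exact mul_le_mul_of_nonneg_left (abs_term_le _ _ _ p) (abs_nonneg _)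
  rw [e1, EH_sum hε Finset.univ (fun k p => ∑ l, c k * c l *
      (un (τ k - τ l) p * (x k).f p * conj ((x l).f p)).re)
    (fun k => ∑ l, |c k * c l| * ((x k).bd * (x l).bd))
    (fun k _ p => (Finset.abs_sum_le_sum_abs _ _).trans (Finset.sum_le_sum fun l _ => hb k l p))]
  refine Finset.sum_congr rfl fun k _ => ?_
  rw [EH_sum hε Finset.univ _ (fun l => |c k * c l| * ((x k).bd * (x l).bd))
    (fun l _ p => hb k l p)]
  refine Finset.sum_congr rfl fun l _ => ?_
  rw [EH_const_mul]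

end family

end Pool.Agent.V8H25.Ker
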